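import Pool.Agent.Work.MP_69b7b0_lc.G.Main

namespace Pool.Agent.Results.MP_69b7b0_lc.EveryGreedyRule

open Pool.Agent.Work.MP_69b7b0_lc

/-- The WPL algorithm only makes rotations that strictly decrease the current weighted path
length; and for every `n` and every additive constant there are an initial search tree on the keys
`1..n` and a request sequence on which every way of serving the requests with such rotations only
costs more than `n / 2` times the offline optimum plus that constant. -/
theorem result :
    (∀ (T : BT) (w : ℕ → ℕ) (σ : List ℕ), BT.GreedyRun T w σ (BT.wplCost T w σ)) ∧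
    ∀ (n : ℕ), 1 ≤ n → ∀ (B : ℕ), ∃ (T₀ : BT) (σ : List ℕ),
      T₀.inorder = List.range' 1 n ∧ (∀ x ∈ σ, 1 ≤ x ∧ x ≤ n) ∧
      ∀ c, BT.GreedyRun T₀ (fun _ => 0) σ c → n * BT.opt T₀ σ + B < 2 * c :=
  ⟨fun T w σ => BT.greedy_wpl σ T w, BT.greedy_main⟩

end Pool.Agent.Results.MP_69b7b0_lc.EveryGreedyRule
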