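import Pool.Agent.Work.MP_69b7b0_lc.Proof

namespace Pool.Agent.Results.MP_69b7b0_lc.WPLLinearRatio

open Pool.Agent.Work.MP_69b7b0_lc

/-- From every initial search tree on the keys `1..n` and for every additive constant there is a
request sequence on which the WPL algorithm pays more than `n / 2` times the offline optimum plus
that constant. -/
theorem result (n : ℕ) (hn : 1 ≤ n) (T₀ : BT) (hT : T₀.inorder = List.range' 1 n) (B : ℕ) :
    ∃ σ : List ℕ, (∀ x ∈ σ, 1 ≤ x ∧ x ≤ n) ∧
      n * BT.opt T₀ σ + B < 2 * BT.wplCost T₀ (fun _ => 0) σ :=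
  BT.main n hn T₀ hT B

end Pool.Agent.Results.MP_69b7b0_lc.WPLLinearRatio
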